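import Pool.Agent.N290.RI.Stm

/-!
# Project RI (helper290), part C2a: slices, nonnegative functions (helper849)
-/

set_option autoImplicit false

open Complex MeasureTheory Set Filter Topology
open scoped ENNReal

namespace Pool.Agent.N849.RI

open Pool.Agent.N290.RI

lemma det_mul (τ : ℂ) : LinearMap.det (LinearMap.mul ℝ ℂ τ) = ‖τ‖ ^ 2 := by
  have h : LinearMap.det (LinearMap.mul ℝ ℂ τ) = Algebra.norm ℝ τ := rfl
  rw [h, Algebra.norm_complex_apply, Complex.normSq_eq_norm_sq]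

lemma scale (τ : ℂ) (hτ : τ ≠ 0) (g : ℂ → ℝ≥0∞) (hg : Measurable g) :
    ∫⁻ ζ, g ζ = ∫⁻ s, ENNReal.ofReal (‖τ‖ ^ 2) * g (τ * s) := by
  have hn : 0 < ‖τ‖ ^ 2 := by
    have := norm_pos_iff.mpr hτ
    positivity
  have h1 : (volume : Measure ℂ).map (LinearMap.mul ℝ ℂ τ) =
      ENNReal.ofReal |(LinearMap.det (LinearMap.mul ℝ ℂ τ))⁻¹| • (volume : Measure ℂ) :=
    Measure.map_linearMap_addHaar_eq_smul_addHaar _ (by rw [det_mul]; exact hn.ne')
  have hmul : Measurable fun s : ℂ => τ * s := by fun_prop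
  have h2 : ∫⁻ s, g (τ * s) = ENNReal.ofReal (‖τ‖ ^ 2)⁻¹ * ∫⁻ ζ, g ζ := by
    have h3 : ∫⁻ ζ, g ζ ∂((volume : Measure ℂ).map fun s : ℂ => τ * s) = ∫⁻ s, g (τ * s) := lintegral_map hg hmul
    have h4 : ((volume : Measure ℂ).map fun s : ℂ => τ * s) = (volume : Measure ℂ).map (LinearMap.mul ℝ ℂ τ) := rfl
    rw [← h3, h4, h1, lintegral_smul_measure, det_mul, abs_of_pos (inv_pos.mpr hn)]
    rfl
  have hgm : Measurable fun s : ℂ => g (τ * s) := hg.comp hmul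
  rw [lintegral_const_mul _ hgm, h2, ← mul_assoc, ← ENNReal.ofReal_mul hn.le, mul_inv_cancel₀ hn.ne',
    ENNReal.ofReal_one, one_mul]

lemma mem_iff (τ s : ℂ) : ((τ, τ * s) : ℂ × ℂ) ∈ B ↔ τ ∈ Metric.ball (0 : ℂ) (Real.sqrt (1 + ‖s‖ ^ 2))⁻¹ := by
  have h0 : 0 < 1 + ‖s‖ ^ 2 := by positivity
  have h1 : 0 < Real.sqrt (1 + ‖s‖ ^ 2) := Real.sqrt_pos.mpr h0
  have h2 : N (τ, τ * s) = (‖τ‖ * Real.sqrt (1 + ‖s‖ ^ 2)) ^ 2 := by
    rw [mul_pow, Real.sq_sqrt h0.le]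
    simp only [N, norm_mul]
    ring
  rw [mem_B, mem_ball_zero_iff, ← one_div, lt_div_iff₀ h1, h2, sq_lt_one_iff₀ (by positivity)]

theorem C2a : C2a := by
  intro F hF
  have hG : Measurable (B.indicator F) := hF.indicator B_meas
  rw [← lintegral_indicator B_meas, Measure.volume_eq_prod, lintegral_prod _ hG.aemeasurable]
  have h1 : ∀ᵐ τ : ℂ ∂volume, τ ≠ 0 := by
    rw [ae_iff]
    simp
  have h2 : ∫⁻ τ : ℂ, ∫⁻ ζ : ℂ, B.indicator F (τ, ζ) =
      ∫⁻ τ : ℂ, ∫⁻ s : ℂ, ENNReal.ofReal (‖τ‖ ^ 2) * B.indicator F (τ, τ * s) := by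
    refine lintegral_congr_ae ?_
    filter_upwards [h1] with τ hτ
    exact scale τ hτ (fun ζ => B.indicator F (τ, ζ)) (hG.comp (by fun_prop))
  rw [h2, lintegral_lintegral_swap]
  · refine lintegral_congr fun s => ?_
    rw [← lintegral_indicator measurableSet_ball]
    refine lintegral_congr fun τ => ?_
    by_cases h : τ ∈ Metric.ball (0 : ℂ) (Real.sqrt (1 + ‖s‖ ^ 2))⁻¹
    · rw [indicator_of_mem h, indicator_of_mem ((mem_iff τ s).mpr h)]
    · rw [indicator_of_notMem h, indicator_of_notMem (fun h' => h ((mem_iff τ s).mp h')), mul_zero]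
  · apply Measurable.aemeasurable
    refine Measurable.mul (by fun_prop) (hG.comp ?_)
    fun_prop

end Pool.Agent.N849.RI
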